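import Pool.Agent.RelG.Targets
import Pool.Agent.RelM.LOC

/-!
# Genericity and the budget (job GEN)
-/

set_option autoImplicit false

namespace Pool.Agent.RelG

open Pool.Agent.RelM (Lang Instr Cfg step run Halts Decides E1 E2 NP pair triple binVal outVal
  Approx IsDensity str pre IsNullCover Null1 Null2 wq sq0 sq1 Asks qb slice pr dst Nlim hq Thin)

namespace GEN_

/-- The rule of the bits. -/
def Rule (G : Lang) (K : Conf) : Prop := ∀ κ n, ((K κ n).isSome ↔ Set1 G K κ n)

theorem beg_succ (K : Conf) (κ n : ℕ) :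
    beg K κ (n + 1) = beg K κ n ++ [(K κ n).isSome] := by
  unfold beg
  rw [List.range_succ, List.map_append]
  rfl

theorem acts_unique (G : Lang) (K : Conf) (κ n e e' : ℕ) (h : Acts G K κ n e)
    (h' : Acts G K κ n e') : e = e' := by
  rcases lt_trichotomy e e' with hlt | heq | hgt
  · exact absurd h.1 (h'.2 e hlt)
  · exact heq
  · exact absurd h'.1 (h.2 e' hgt)

theorem acts_ac (G : Lang) (K : Conf) (hK : Rule G K) (κ n e : ℕ) (h : Acts G K κ n e) :
    ac G K κ (req e).2 (beg K κ (n + 1)) := by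
  rw [beg_succ]
  by_cases ht : ac G K κ (req e).2 (beg K κ n ++ [true])
  · have h1 : (K κ n).isSome = true := (hK κ n).2 ⟨e, h, ht⟩
    rw [h1]
    exact ht
  · have h0 : (K κ n).isSome = false := by
      by_contra hc
      have hc' : (K κ n).isSome = true := by
        cases hb : (K κ n).isSome
        · exact absurd hb hc
        · rfl
      obtain ⟨e', he', hac⟩ := (hK κ n).1 hc'
      have := acts_unique G K κ n e e' h he'
      subst this
      exact ht hac
    rw [h0]
    obtain ⟨b, hb⟩ := h.1.2.2.2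
    cases b
    · exact hb
    · exact absurd hb ht

theorem acts_met (G : Lang) (K : Conf) (hK : Rule G K) (κ n n' e : ℕ) (h : Acts G K κ n e)
    (hn : n < n') : Met G K κ n' e :=
  ⟨n, hn, h.1.1, acts_ac G K hK κ n e h⟩

theorem acts_once (G : Lang) (K : Conf) (hK : Rule G K) (κ n n' e : ℕ) (h : Acts G K κ n e)
    (h' : Acts G K κ n' e) : n = n' := by
  rcases lt_trichotomy n n' with hlt | heq | hgt
  · exact absurd (acts_met G K hK κ n n' e h hlt) h'.1.2.2.1
  · exact heq
  · exact absurd (acts_met G K hK κ n' n e h' hgt) h.1.2.2.1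

theorem want_acts (G : Lang) (K : Conf) (κ n e : ℕ) (h : Want G K κ n e) :
    ∃ e' ≤ e, Acts G K κ n e' := by
  classical
  have hex : ∃ e', Want G K κ n e' := ⟨e, h⟩
  refine ⟨Nat.find hex, Nat.find_min' hex h, Nat.find_spec hex, fun e' he' => ?_⟩
  exact Nat.find_min hex he'

theorem lg_str (K : Conf) (κ i : ℕ) : lg K κ (str i) = (K κ i).isSome := by
  classical
  unfold lg
  rw [Bool.eq_iff_iff, decide_eq_true_iff]
  constructor
  · rintro ⟨n, hn, hs⟩
    have := Pool.Agent.RelM.strinj hn
    subst this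
    exact hs
  · intro hs
    exact ⟨i, rfl, hs⟩

theorem pre_lg (K : Conf) (κ n : ℕ) : pre (lg K κ) n = beg K κ n := by
  unfold pre beg
  refine List.map_congr_left fun i _ => ?_
  exact lg_str K κ i

end GEN_

open GEN_

theorem gen : T_GEN := by
  intro G K hK κ C P hdec hdense
  by_contra hnm
  obtain ⟨e, he⟩ := req_surj (κ, P)
  have he1 : (req e).1 = κ := by rw [he]
  have he2 : (req e).2 = P := by rw [he]
  have hac : ∀ w : List Bool, ac G K κ P w ↔ C w = true := by
    intro w
    unfold ac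
    rw [(hdec w).2]
    simp
  have hfin : (⋃ e' ∈ Set.Iic e, {n | Acts G K κ n e'}).Finite := by
    refine Set.Finite.biUnion (Set.finite_Iic e) fun e' _ => ?_
    refine Set.Subsingleton.finite fun n hn n' hn' => ?_
    exact acts_once G K hK κ n n' e' hn hn'
  obtain ⟨B, hB⟩ := hfin.bddAbove
  obtain ⟨n, hn, b, hb⟩ := hdense (B + 1 + 2 ^ e)
  rw [pre_lg] at hb
  have hln : e ≤ ln n := by
    unfold ln
    have : 2 ^ e ≤ n + 1 := by omega
    exact (Nat.le_log_iff_pow_le (by norm_num) (by omega)).2 this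
  have hwant : Want G K κ n e := by
    refine ⟨hln, he1, ?_, b, ?_⟩
    · rintro ⟨n', -, -, hm⟩
      rw [he2, hac] at hm
      exact hnm ⟨n' + 1, by rw [pre_lg]; exact hm⟩
    · rw [he2, hac]
      exact hb
  obtain ⟨e', he', hacts⟩ := want_acts G K κ n e hwant
  have hmem : n ∈ ⋃ e' ∈ Set.Iic e, {n | Acts G K κ n e'} := by
    simp only [Set.mem_iUnion]
    exact ⟨e', he', hacts⟩
  have hle : n ≤ B := hB hmem
  have hpos : 0 < 2 ^ e := by positivity
  omega

theorem bud : T_BUD := by
  classical
  intro G K hK hlen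
  refine ⟨hlen, fun m s hs => ?_⟩
  have hex : ∀ p : ℕ × ℕ, (K p.1 p.2).isSome = true → ∃ e, Acts G K p.1 p.2 e := by
    intro p hp
    obtain ⟨e, he, -⟩ := (hK p.1 p.2).1 hp
    exact ⟨e, he⟩
  let f : ℕ × ℕ → ℕ := fun p => if h : (K p.1 p.2).isSome = true then (hex p h).choose else 0
  have hf : ∀ p ∈ s, Acts G K p.1 p.2 (f p) := by
    intro p hp
    have h1 := (hs p hp).1
    have h2 : f p = (hex p h1).choose := by
      simp only [f]
      rw [dif_pos h1]
    rw [h2]
    exact (hex p h1).choose_spec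
  have hcard : s.card ≤ (Finset.range (m + 1)).card := by
    refine Finset.card_le_card_of_injOn f (fun p hp => ?_) (fun p hp p' hp' hpp => ?_)
    · have h1 := (hf p hp).1.1
      have h2 := (hs p hp).2
      simp only [Finset.coe_range, Set.mem_Iio]
      omega
    · have h1 := hf p hp
      have h2 := hf p' hp'
      rw [← hpp] at h2
      have h3 : p.1 = p'.1 := by rw [← h1.1.2.1, ← h2.1.2.1]
      rw [← h3] at h2
      have h4 : p.2 = p'.2 := acts_once G K hK p.1 p.2 p'.2 (f p) h1 h2
      exact Prod.ext h3 h4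
  rwa [Finset.card_range] at hcard

end Pool.Agent.RelG
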