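import Pool.Agent.RelG.Core

/-!
# The targets of the jobs
-/

set_option autoImplicit false

namespace Pool.Agent.RelG

open Pool.Agent.RelM (Lang Instr Cfg step run Halts Decides E1 E2 NP pair triple binVal outVal
  Approx IsDensity str pre IsNullCover Null1 Null2 wq sq0 sq1 Asks qb slice pr dst Nlim hq Thin)

/-! ## Levels (job LV) -/

/-- The levels and the times. -/
def T_LV : Prop := (∀ κ m m', m ≤ m' → lv κ m ≤ lv κ m') ∧ (∀ κ m, 4 * (m + 2) ≤ lv κ m) ∧
  (∀ κ m, κ + 64 ≤ lv κ m) ∧ (∀ κ n, tm κ (n + 1) ^ 2 ≤ 2 ^ lv κ (ln n)) ∧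
  (∀ κ n, n + 1 + tm κ (n + 1) < 2 ^ lv κ (ln n)) ∧
  (∀ κ n n', n < n' → rk κ n < rk κ n') ∧
  (∀ κ n κ' n', rk κ n ≤ rk κ' n' → lv κ (ln n) ≤ lv κ' (ln n'))

/-! ## The values of the oracle (job ORC) -/

def T_OWQ : Prop := ∀ (G : Lang) (K : Conf) (κ n : ℕ) (y : List Bool),
  orc G K (wq κ (str n) y) = true ↔ K κ n = some y

def T_OSQ0 : Prop := ∀ (G : Lang) (K : Conf) (κ : ℕ) (x : List Bool) (m : ℕ),
  orc G K (sq0 κ x m) = true ↔ 2 ^ lv κ x.length ≤ m

def T_OSQ1 : Prop := ∀ (G : Lang) (K : Conf) (κ n m : ℕ),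
  orc G K (sq1 κ (str n) m) = true ↔ 2 ^ lv κ (ln n) ≤ m ∧ (K κ n).isSome

def T_OTT : Prop := ∀ (G : Lang) (K : Conf) (u : List Bool), orc G K (true :: true :: u) = G u

/-- Two configurations give different answers to `q` only if `q` is a key of a pair in which they
differ or a paid question about such a pair. -/
def T_ODIFF : Prop := ∀ (G : Lang) (K K' : Conf) (q : List Bool), orc G K q ≠ orc G K' q →
  ∃ κ n, K κ n ≠ K' κ n ∧ ((∃ y, q = wq κ (str n) y ∧ (K κ n = some y ∨ K' κ n = some y)) ∨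
    2 ^ lv κ (ln n) < q.length)

/-- The answer to a word of length at most `m` depends only on the words of length at most `m - 2`
of `G`. -/
def T_OLOC : Prop := ∀ (G G' : Lang) (K : Conf) (m : ℕ),
  (∀ u : List Bool, u.length + 2 ≤ m → G u = G' u) →
  ∀ q : List Bool, q.length ≤ m → orc G K q = orc G' K q

/-! ## Free keys (job KEY) -/

def T_KEY : Prop := ∀ (G : Lang) (K : Conf) (κ n : ℕ), ∃ y : List Bool, y.length = lv κ (ln n) ∧
  ∀ κ' n', rk κ' n' ≤ rk κ n → ¬ Asked G (cut (rk κ' n') K) κ n κ' n' y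

/-! ## The configuration (job CONF) -/

def T_CONF : Prop := ∀ G : Lang, ∃ K : Conf, Nice G K

/-! ## The runs keep their values (job HID) -/

def T_HID : Prop := ∀ (G : Lang) (K : Conf), Nice G K → ∀ (κ n e : ℕ) (b : Bool),
  e ≤ ln n → (req e).1 = κ → ∀ r, rk κ n ≤ r →
    (ac G (cut r K) κ (req e).2 (beg K κ n ++ [b]) ↔ ac G K κ (req e).2 (beg K κ n ++ [b]))

/-! ## The rule in the final oracle (job RULE) -/

/-- The bits are set by the rule, evaluated with the final oracle. -/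
def T_RULE : Prop := ∀ (G : Lang) (K : Conf), Nice G K → ∀ κ n,
  ((K κ n).isSome ↔ Set1 G K κ n)

/-! ## Genericity (job GEN) -/

def T_GEN : Prop := ∀ (G : Lang) (K : Conf), (∀ κ n, ((K κ n).isSome ↔ Set1 G K κ n)) →
  ∀ κ, Generic (orc G K) (tm κ) (lg K κ)

/-! ## The budget (job BUD) -/

def T_BUD : Prop := ∀ (G : Lang) (K : Conf), (∀ κ n, ((K κ n).isSome ↔ Set1 G K κ n)) →
  (∀ κ n y, K κ n = some y → y.length = lv κ (ln n)) → Bud K

/-! ## The languages are in the classes (job MEM) -/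

def T_NPG : Prop := ∀ (G : Lang) (K : Conf), (∀ κ n y, K κ n = some y → y.length = lv κ (ln n)) →
  ∀ κ, lg K κ ∈ NP (orc G K)

def T_E1G : Prop := ∀ (G : Lang) (K : Conf) (c : ℕ), lg K (2 * c + 1) ∈ E1 (orc G K)

def T_E2G : Prop := ∀ (G : Lang) (K : Conf) (c : ℕ), lg K (2 * c) ∈ E2 (orc G K)

/-! ## Counting (job THIN) -/

def T_THIN : Prop := ∀ G : Lang, Thin (V G)

/-! ## Good machines (job GOOD) -/

def T_GOOD : Prop := ∀ e : ℕ, ∃ n₀ : ℕ, ∀ n, n₀ ≤ n → Good e n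

/-! ## The fixed part of the oracle (job HFIX) -/

def T_HFIX : Prop := ∀ u, H u = bitsOf H u

def T_BITS : Prop := ∀ (G : Lang) (j k r : ℕ) (w : List Bool),
  (bitsOf G (hq false false j k r w) = true ↔ j < Nat.size (num G k r w)) ∧
  (bitsOf G (hq false true j k r w) = true ↔ Nat.testBit (num G k r w) j = true) ∧
  (bitsOf G (hq true false j k r w) = true ↔ j < r + 1)

def T_NUM : Prop := ∀ (G : Lang) (k r : ℕ) (w : List Bool),
  Nat.size (num G k r w) ≤ 2 * (triple k r w).length + 4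

/-! ## The theorem (job MAIN) -/

/-- Relative to some oracle `NP` has `p`-measure `0`, although for every `c` there are
`(l + 2) ^ c`-generic languages in `NP ∩ E` and `2 ^ ((log l + 2) ^ c)`-generic languages in
`NP ∩ E_2`. -/
def T_MAIN : Prop := ∃ O : Lang, Null1 O (NP O) ∧
  (∀ c : ℕ, ∃ A ∈ NP O ∩ E1 O, Generic O (fun l => (l + 2) ^ c) A) ∧
  (∀ c : ℕ, ∃ A ∈ NP O ∩ E2 O, Generic O (fun l => 2 ^ ((Nat.log 2 l + 2) ^ c)) A)

end Pool.Agent.RelG
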