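import Pool.Agent.RelG.Targets
import Pool.Agent.RelM.QRY
import Pool.Agent.RelM.LOC

/-!
# Job KEY: a free key by counting
-/

set_option autoImplicit false

namespace Pool.Agent.RelG

open Pool.Agent.RelM (Lang Instr Cfg step run Halts Decides E1 E2 NP pair triple binVal outVal
  Approx IsDensity str pre IsNullCover Null1 Null2 wq sq0 sq1 Asks qb slice pr dst Nlim hq Thin)
open Classical

namespace KEY_

lemma poly_lt (q : ℕ) (hq : 16 ≤ q) : 2 * (4 * q + 3) ^ 2 < 2 ^ q := by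
  induction q, hq using Nat.le_induction with
  | base => norm_num
  | succ q hq ih =>
    have h1 : 2 * (4 * (q + 1) + 3) ^ 2 ≤ 2 * (2 * (4 * q + 3) ^ 2) := by nlinarith
    calc 2 * (4 * (q + 1) + 3) ^ 2 ≤ 2 * (2 * (4 * q + 3) ^ 2) := h1
      _ < 2 * 2 ^ q := by omega
      _ = 2 ^ (q + 1) := by ring

lemma count_lt (t : ℕ) (ht : 64 ≤ t) :
    t * 2 ^ (t / 4) * t * 2 * 2 ^ ((t + 1) / 2) < 2 ^ t := by
  have h1 : 2 * t ^ 2 < 2 ^ (t / 4) := by
    have h := poly_lt (t / 4) (by omega)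
    have h2 : t ≤ 4 * (t / 4) + 3 := by omega
    calc 2 * t ^ 2 ≤ 2 * (4 * (t / 4) + 3) ^ 2 := by gcongr
      _ < _ := h
  have h2 : 2 ^ (t / 4) * (2 ^ (t / 4) * 2 ^ ((t + 1) / 2)) ≤ 2 ^ t := by
    rw [← pow_add, ← pow_add]
    exact Nat.pow_le_pow_right (by norm_num) (by omega)
  calc t * 2 ^ (t / 4) * t * 2 * 2 ^ ((t + 1) / 2)
      = (2 * t ^ 2) * (2 ^ (t / 4) * 2 ^ ((t + 1) / 2)) := by ring
    _ < 2 ^ (t / 4) * (2 ^ (t / 4) * 2 ^ ((t + 1) / 2)) := by
        exact Nat.mul_lt_mul_of_pos_right h1 (by positivity)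
    _ ≤ 2 ^ t := h2

/-- The word asked about at the step given by the parameters. -/
noncomputable def ph (G : Lang) (K : Conf) (κ n : ℕ) (p : ℕ × ℕ × ℕ × Bool × ℕ) : List Bool :=
  if h : ∃ y : List Bool, Asks (orc G (cut (rk p.1 p.2.1) K)) (req p.2.2.1).2
    (beg (cut (rk p.1 p.2.1) K) p.1 p.2.1 ++ [p.2.2.2.1]) p.2.2.2.2 (wq κ (str n) y)
  then h.choose else []

lemma ph_eq (G : Lang) (K : Conf) (κ n : ℕ) (p : ℕ × ℕ × ℕ × Bool × ℕ) (y : List Bool)
    (h : Asks (orc G (cut (rk p.1 p.2.1) K)) (req p.2.2.1).2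
      (beg (cut (rk p.1 p.2.1) K) p.1 p.2.1 ++ [p.2.2.2.1]) p.2.2.2.2 (wq κ (str n) y)) :
    ph G K κ n p = y := by
  have hex : ∃ y : List Bool, Asks (orc G (cut (rk p.1 p.2.1) K)) (req p.2.2.1).2
    (beg (cut (rk p.1 p.2.1) K) p.1 p.2.1 ++ [p.2.2.2.1]) p.2.2.2.2 (wq κ (str n) y) := ⟨y, h⟩
  unfold ph
  rw [dif_pos hex]
  have h1 := RelM.one _ _ _ _ _ _ hex.choose_spec h
  exact (RelM.wq_inj h1).2.2

/-- The parameters. -/
def par (t : ℕ) : Finset (ℕ × ℕ × ℕ × Bool × ℕ) :=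
  Finset.range t ×ˢ Finset.range (2 ^ (t / 4)) ×ˢ Finset.range t ×ˢ Finset.univ ×ˢ
    Finset.range (2 ^ ((t + 1) / 2))

lemma par_card (t : ℕ) : (par t).card = t * 2 ^ (t / 4) * t * 2 * 2 ^ ((t + 1) / 2) := by
  unfold par
  simp only [Finset.card_product, Finset.card_range, Finset.card_univ, Fintype.card_bool]
  ring

lemma words_card (t : ℕ) : (Finset.univ.image fun v : List.Vector Bool t => v.toList).card
    = 2 ^ t := by
  rw [Finset.card_image_of_injective _ List.Vector.toList_injective, Finset.card_univ,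
    card_vector, Fintype.card_bool]

end KEY_

open KEY_ in
theorem key (hLV : T_LV) : T_KEY := by
  obtain ⟨_, h2, h3, h4, _, _, h7⟩ := hLV
  intro G K κ n
  by_contra hcon
  push Not at hcon
  set t := lv κ (ln n) with ht
  have ht64 : 64 ≤ t := by have := h3 κ (ln n); omega
  have hsub : (Finset.univ.image fun v : List.Vector Bool t => v.toList) ⊆
      (par t).image (ph G K κ n) := by
    intro y hy
    obtain ⟨v, _, hv⟩ := Finset.mem_image.1 hy
    have hlen : y.length = t := by rw [← hv]; exact v.toList_length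
    obtain ⟨κ', n', hrk, e, b, s, he, hreq, hs, ha⟩ := hcon y hlen
    have hle : lv κ' (ln n') ≤ t := h7 κ' n' κ n hrk
    have hκ : κ' < t := by have := h3 κ' (ln n'); omega
    have h4' := h2 κ' (ln n')
    have hln : n' + 1 < 2 ^ (ln n' + 1) := by
      unfold ln
      exact Nat.lt_pow_succ_log_self (by norm_num) _
    have hn' : n' < 2 ^ (t / 4) := by
      have h5 : 2 ^ (ln n' + 1) ≤ 2 ^ (t / 4) :=
        Nat.pow_le_pow_right (by norm_num) (by omega)
      omega
    have het : e < t := by omega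
    have hst : s < 2 ^ ((t + 1) / 2) := by
      have h6 := h4 κ' n'
      have h8 : 2 ^ lv κ' (ln n') ≤ 2 ^ t := Nat.pow_le_pow_right (by norm_num) hle
      have h9 : 2 ^ t ≤ (2 ^ ((t + 1) / 2)) ^ 2 := by
        rw [← pow_mul]
        exact Nat.pow_le_pow_right (by norm_num) (by omega)
      have h10 : tm κ' (n' + 1) ≤ 2 ^ ((t + 1) / 2) := by
        by_contra hlt
        push Not at hlt
        have : (2 ^ ((t + 1) / 2)) ^ 2 < tm κ' (n' + 1) ^ 2 := Nat.pow_lt_pow_left hlt (by norm_num)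
        omega
      omega
    refine Finset.mem_image.2 ⟨(κ', n', e, b, s), ?_, ph_eq G K κ n (κ', n', e, b, s) y ha⟩
    unfold par
    simp only [Finset.mem_product, Finset.mem_range, Finset.mem_univ]
    exact ⟨hκ, hn', het, trivial, hst⟩
  have h5 := Finset.card_le_card hsub
  rw [words_card] at h5
  have h6 : ((par t).image (ph G K κ n)).card ≤ (par t).card := Finset.card_image_le
  rw [par_card] at h6
  have h8 := count_lt t ht64
  omega

end Pool.Agent.RelG
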