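import Pool.Agent.RelG.Targets
import Pool.Agent.RelM.LOC
import Pool.Agent.RelM.QRY

/-!
# Job ORC: the values of the oracle
-/

set_option autoImplicit false

namespace Pool.Agent.RelG

open Pool.Agent.RelM (Lang Instr Cfg step run Halts Decides E1 E2 NP pair triple binVal outVal
  Approx IsDensity str pre IsNullCover Null1 Null2 wq sq0 sq1 Asks qb slice pr dst Nlim hq Thin
  wq_inj triple_inj sq1_length)

namespace ORC_

lemma str_inj {n n' : ℕ} (h : str n = str n') : n = n' := Pool.Agent.RelM.strinj h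

end ORC_

theorem owq : T_OWQ := by
  intro G K κ n y
  simp only [orc, decide_eq_true_eq]
  constructor
  · rintro (⟨κ', n', y', hq, hK⟩ | ⟨κ', x', m, hq, -⟩ | ⟨κ', n', m, hq, -⟩ | ⟨u, hq, -⟩)
    · obtain ⟨h1, h2, h3⟩ := wq_inj hq
      have h4 := ORC_.str_inj h2
      subst h1; subst h4; subst h3
      exact hK
    · simp [wq, sq0] at hq
    · simp [wq, sq1] at hq
    · simp [wq] at hq
  · intro hK
    exact Or.inl ⟨κ, n, y, rfl, hK⟩

theorem osq0 : T_OSQ0 := by
  intro G K κ x m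
  simp only [orc, decide_eq_true_eq]
  constructor
  · rintro (⟨κ', n', y', hq, hK⟩ | ⟨κ', x', m', hq, h⟩ | ⟨κ', n', m', hq, -⟩ | ⟨u, hq, -⟩)
    · simp [wq, sq0] at hq
    · simp only [sq0, List.cons.injEq, true_and] at hq
      obtain ⟨h1, h2, h3⟩ := triple_inj hq
      subst h1; subst h2; subst h3
      exact h
    · simp [sq0, sq1] at hq
    · simp [sq0] at hq
  · intro h
    exact Or.inr (Or.inl ⟨κ, x, m, rfl, h⟩)

theorem osq1 : T_OSQ1 := by
  intro G K κ n m
  simp only [orc, decide_eq_true_eq]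
  constructor
  · rintro (⟨κ', n', y', hq, hK⟩ | ⟨κ', x', m', hq, h⟩ | ⟨κ', n', m', hq, h⟩ | ⟨u, hq, -⟩)
    · simp [wq, sq1] at hq
    · simp [sq0, sq1] at hq
    · simp only [sq1, List.cons.injEq, true_and] at hq
      obtain ⟨h1, h2, h3⟩ := triple_inj hq
      have h4 := ORC_.str_inj h3
      subst h1; subst h2; subst h4
      exact h
    · simp [sq1] at hq
  · intro h
    exact Or.inr (Or.inr (Or.inl ⟨κ, n, m, rfl, h⟩))

theorem ott : T_OTT := by
  intro G K u
  rw [Bool.eq_iff_iff]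
  simp only [orc, decide_eq_true_eq]
  constructor
  · rintro (⟨κ', n', y', hq, hK⟩ | ⟨κ', x', m', hq, h⟩ | ⟨κ', n', m', hq, h⟩ | ⟨u', hq, h⟩)
    · simp [wq] at hq
    · simp [sq0] at hq
    · simp [sq1] at hq
    · simp only [List.cons.injEq, true_and] at hq
      rw [hq]; exact h
  · intro h
    exact Or.inr (Or.inr (Or.inr ⟨u, rfl, h⟩))

/-- One half of `odiff`. -/
lemma ORC_.odiff_half (G : Lang) (K K' : Conf) (q : List Bool) (h1 : orc G K q = true)
    (h2 : orc G K' q ≠ true) :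
    ∃ κ n, K κ n ≠ K' κ n ∧ ((∃ y, q = wq κ (str n) y ∧ (K κ n = some y ∨ K' κ n = some y)) ∨
      2 ^ lv κ (ln n) < q.length) := by
  simp only [orc, decide_eq_true_eq, ne_eq] at h1 h2
  push Not at h2
  obtain ⟨g1, g2, g3, g4⟩ := h2
  rcases h1 with ⟨κ, n, y, hq, hK⟩ | ⟨κ, x, m, hq, hm⟩ | ⟨κ, n, m, hq, hm, hK⟩ | ⟨u, hq, hG⟩
  · refine ⟨κ, n, ?_, Or.inl ⟨y, hq, Or.inl hK⟩⟩
    intro h
    exact g1 κ n y hq (by rw [← h]; exact hK)
  · exact absurd hm (not_le.2 (g2 κ x m hq))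
  · refine ⟨κ, n, ?_, Or.inr ?_⟩
    · intro h
      have h3 := g3 κ n m hq hm
      rw [← h] at h3
      exact h3 hK
    · rw [hq, sq1_length]
      omega
  · exact absurd hG (g4 u hq)

theorem odiff : T_ODIFF := by
  intro G K K' q h
  by_cases h1 : orc G K q = true
  · exact ORC_.odiff_half G K K' q h1 (fun h2 => h (by rw [h1, h2]))
  · have h2 : orc G K' q = true := by
      rw [Bool.not_eq_true] at h1
      by_contra h3
      rw [Bool.not_eq_true] at h3
      exact h (by rw [h1, h3])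
    obtain ⟨κ, n, h3, h4⟩ := ORC_.odiff_half G K' K q h2 h1
    refine ⟨κ, n, Ne.symm h3, ?_⟩
    rcases h4 with ⟨y, hq, h5⟩ | h5
    · exact Or.inl ⟨y, hq, h5.symm⟩
    · exact Or.inr h5

/-- One half of `oloc`. -/
lemma ORC_.oloc_half (G G' : Lang) (K : Conf) (q : List Bool)
    (hG : ∀ u : List Bool, u.length + 2 ≤ q.length → G u = G' u) (h : orc G K q = true) :
    orc G' K q = true := by
  simp only [orc, decide_eq_true_eq] at h ⊢
  rcases h with h | h | h | ⟨u, h1, h2⟩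
  · exact Or.inl h
  · exact Or.inr (Or.inl h)
  · exact Or.inr (Or.inr (Or.inl h))
  · refine Or.inr (Or.inr (Or.inr ⟨u, h1, ?_⟩))
    rw [← hG u (by rw [h1]; simp)]
    exact h2

theorem oloc : T_OLOC := by
  intro G G' K m hG q hq
  rw [Bool.eq_iff_iff]
  constructor
  · exact ORC_.oloc_half G G' K q (fun u hu => hG u (le_trans hu hq))
  · exact ORC_.oloc_half G' G K q (fun u hu => (hG u (le_trans hu hq)).symm)

end Pool.Agent.RelG
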