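import Pool.Agent.RelG.Targets

/-!
# The configuration (job CONF)
-/

set_option autoImplicit false

namespace Pool.Agent.RelG

open Pool.Agent.RelM (Lang Instr Cfg step run Halts Decides E1 E2 NP pair triple binVal outVal
  Approx IsDensity str pre IsNullCover Null1 Null2 wq sq0 sq1 Asks qb slice pr dst Nlim hq Thin)

namespace CONF_

open Classical

/-- The stages of the construction. -/
noncomputable def Kn (hK : T_KEY) (G : Lang) : ℕ → Conf
  | 0 => fun _ _ => none
  | r + 1 => fun κ n =>
      if rk κ n = r then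
        (if Set1 G (Kn hK G r) κ n then some (hK G (Kn hK G r) κ n).choose else none)
      else Kn hK G r κ n

/-- The configuration. -/
noncomputable def KK (hK : T_KEY) (G : Lang) : Conf := fun κ n => Kn hK G (rk κ n + 1) κ n

lemma kn_none (hK : T_KEY) (G : Lang) (r κ n : ℕ) (h : r ≤ rk κ n) : Kn hK G r κ n = none := by
  induction r with
  | zero => rfl
  | succ r ih =>
    have h1 : ¬ rk κ n = r := by omega
    simp only [Kn, if_neg h1]
    exact ih (by omega)

lemma kn_eq (hK : T_KEY) (G : Lang) (r κ n : ℕ) (h : rk κ n < r) :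
    Kn hK G r κ n = KK hK G κ n := by
  induction r with
  | zero => omega
  | succ r ih =>
    by_cases h1 : rk κ n = r
    · unfold KK
      rw [h1]
    · have h2 : Kn hK G (r + 1) κ n = Kn hK G r κ n := by
        simp only [Kn, if_neg h1]
      rw [h2]
      exact ih (by omega)

lemma kn_cut (hK : T_KEY) (G : Lang) (r : ℕ) : Kn hK G r = cut r (KK hK G) := by
  funext κ n
  by_cases h : rk κ n < r
  · rw [kn_eq hK G r κ n h]
    simp only [cut, if_pos h]
  · rw [kn_none hK G r κ n (by omega)]
    simp only [cut, if_neg h]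

lemma cut_cut (K : Conf) (r r' : ℕ) (h : r' ≤ r) : cut r' (cut r K) = cut r' K := by
  funext κ n
  by_cases h1 : rk κ n < r'
  · have h2 : rk κ n < r := by omega
    simp only [cut, if_pos h1, if_pos h2]
  · simp only [cut, if_neg h1]

lemma kk_val (hK : T_KEY) (G : Lang) (κ n : ℕ) : KK hK G κ n =
    if Set1 G (Kn hK G (rk κ n)) κ n then some (hK G (Kn hK G (rk κ n)) κ n).choose else none := by
  have h : Kn hK G (rk κ n + 1) κ n =
      if Set1 G (Kn hK G (rk κ n)) κ n then some (hK G (Kn hK G (rk κ n)) κ n).choose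
        else none := by
    simp only [Kn, if_true]
  exact h

end CONF_

open CONF_ in
/-- The configuration exists. -/
theorem conf (_hLV : T_LV) (hK : T_KEY) : T_CONF := by
  classical
  intro G
  refine ⟨KK hK G, fun κ n => ⟨?_, ?_⟩⟩
  · rw [kk_val, kn_cut]
    by_cases h : Set1 G (cut (rk κ n) (KK hK G)) κ n
    · rw [if_pos h]
      exact ⟨fun _ => h, fun _ => rfl⟩
    · rw [if_neg h]
      exact ⟨fun h' => absurd h' (by simp), fun h' => absurd h' h⟩
  · intro y hy
    rw [kk_val] at hy
    by_cases h : Set1 G (Kn hK G (rk κ n)) κ n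
    · rw [if_pos h] at hy
      have hy' : (hK G (Kn hK G (rk κ n)) κ n).choose = y := Option.some.inj hy
      have hs := (hK G (Kn hK G (rk κ n)) κ n).choose_spec
      rw [hy'] at hs
      refine ⟨hs.1, fun κ' n' hr => ?_⟩
      have h3 := hs.2 κ' n' hr
      rw [kn_cut, cut_cut _ _ _ hr] at h3
      exact h3
    · rw [if_neg h] at hy
      exact absurd hy (by simp)

end Pool.Agent.RelG
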