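import Pool.Agent.RelG.Defs
import Pool.Agent.RelM.Targets

/-!
# The oracle: hidden generic languages of low entropy
-/

set_option autoImplicit false

namespace Pool.Agent.RelG

open Pool.Agent.RelM (Lang Instr Cfg step run Halts Decides E1 E2 NP pair triple binVal outVal
  Approx IsDensity str pre IsNullCover Null1 Null2 wq sq0 sq1 Asks qb slice pr dst Nlim hq Thin)
open Classical

/-! ## Levels and times -/

/-- The length of the keys of the words of length `m` in the family `κ`. -/
def lv (κ m : ℕ) : ℕ := if κ % 2 = 0 then (m + 2) ^ (κ + 8) else (κ + 64) * (m + 2)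

/-- The time bound of the conditions of the family `κ`. -/
def tm (κ l : ℕ) : ℕ := if κ % 2 = 0 then 2 ^ ((Nat.log 2 l + 2) ^ (κ / 2)) else (l + 2) ^ (κ / 2)

/-- The length of the word number `n`. -/
def ln (n : ℕ) : ℕ := Nat.log 2 (n + 1)

/-- The rank of the pair κ, n. -/
def rk (κ n : ℕ) : ℕ := 2 ^ lv κ (ln n) + n

/-! ## Configurations and oracles -/

/-- A configuration: `K κ n = some y` means that the word number `n` is in the language of the
family `κ` and that its key is `y`. -/
abbrev Conf : Type := ℕ → ℕ → Option (List Bool)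

/-- The part of a configuration with ranks less than `r`. -/
noncomputable def cut (r : ℕ) (K : Conf) : Conf := fun κ n => if rk κ n < r then K κ n else none

/-- The language of the family `κ`: the word number `n` is in it if `K κ n` is not `none`. -/
noncomputable def lg (K : Conf) (κ : ℕ) : Lang := fun x => decide (∃ n, str n = x ∧ (K κ n).isSome)

/-- The oracle of a configuration, with the fixed part `G`. -/
noncomputable def orc (G : Lang) (K : Conf) : Lang := fun q => decide (
  (∃ κ n y, q = wq κ (str n) y ∧ K κ n = some y) ∨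
  (∃ κ x m, q = sq0 κ x m ∧ 2 ^ lv κ x.length ≤ m) ∨
  (∃ κ n m, q = sq1 κ (str n) m ∧ 2 ^ lv κ (ln n) ≤ m ∧ (K κ n).isSome) ∨
  (∃ u, q = true :: true :: u ∧ G u = true))

/-- The word is accepted by the program of a requirement of the family `κ`. -/
def ac (G : Lang) (K : Conf) (κ : ℕ) (P : List Instr) (w : List Bool) : Prop :=
  (run (orc G K) P w (tm κ w.length)).st 1 = [true]

/-- An enumeration of the requirements: a family and a program. -/
noncomputable def req : ℕ → ℕ × List Instr :=
  (exists_surjective_nat (ℕ × List Instr)).choose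

lemma req_surj : Function.Surjective req :=
  (exists_surjective_nat (ℕ × List Instr)).choose_spec

/-- The beginning of length `n` of the characteristic sequence of the family `κ`. -/
def beg (K : Conf) (κ n : ℕ) : List Bool := (List.range n).map fun j => (K κ j).isSome

/-- The requirement `e` is met by the first `n` bits. -/
def Met (G : Lang) (K : Conf) (κ n e : ℕ) : Prop :=
  ∃ n' < n, e ≤ ln n' ∧ ac G K κ (req e).2 (beg K κ (n' + 1))

/-- The requirement `e` wants to act at the pair κ, n. -/
def Want (G : Lang) (K : Conf) (κ n e : ℕ) : Prop :=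
  e ≤ ln n ∧ (req e).1 = κ ∧ ¬ Met G K κ n e ∧ ∃ b : Bool, ac G K κ (req e).2 (beg K κ n ++ [b])

/-- The requirement `e` acts at the pair κ, n. -/
def Acts (G : Lang) (K : Conf) (κ n e : ℕ) : Prop :=
  Want G K κ n e ∧ ∀ e' < e, ¬ Want G K κ n e'

/-- The bit number `n` of the family `κ` is set to `1`. -/
def Set1 (G : Lang) (K : Conf) (κ n : ℕ) : Prop :=
  ∃ e, Acts G K κ n e ∧ ac G K κ (req e).2 (beg K κ n ++ [true])

/-- `y` is asked as a key of the pair κ, n in one of the runs for the pair κ', n'. -/
def Asked (G : Lang) (K : Conf) (κ n κ' n' : ℕ) (y : List Bool) : Prop :=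
  ∃ e b s, e ≤ ln n' ∧ (req e).1 = κ' ∧ s < tm κ' (n' + 1) ∧
    Asks (orc G K) (req e).2 (beg K κ' n' ++ [b]) s (wq κ (str n) y)

/-- The configuration `K` is built by the rules. -/
def Nice (G : Lang) (K : Conf) : Prop := ∀ κ n,
  ((K κ n).isSome ↔ Set1 G (cut (rk κ n) K) κ n) ∧
  ∀ y, K κ n = some y → y.length = lv κ (ln n) ∧
    ∀ κ' n', rk κ' n' ≤ rk κ n → ¬ Asked G (cut (rk κ' n') K) κ n κ' n' y

/-! ## Low entropy -/

/-- At most `m + 1` words of length at most `m` have keys, and all keys have the right length. -/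
def Bud (K : Conf) : Prop :=
  (∀ κ n y, K κ n = some y → y.length = lv κ (ln n)) ∧
  ∀ m : ℕ, ∀ s : Finset (ℕ × ℕ), (∀ p ∈ s, (K p.1 p.2).isSome ∧ ln p.2 ≤ m) → s.card ≤ m + 1

/-- The machine `v = (P, j, k)` accepts `x`. -/
def acc (G : Lang) (K : Conf) (v : List Instr × ℕ × ℕ) (x : List Bool) : Prop :=
  ∃ y : List Bool, y.length ≤ (x.length + 2) ^ v.2.1 ∧
    (run (orc G K) v.1 (pair x y) ((x.length + 2) ^ v.2.2)).st 1 = [true]

/-- An enumeration of the nondeterministic machines. -/
noncomputable def cd : ℕ → List Instr × ℕ × ℕ :=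
  (exists_surjective_nat (List Instr × ℕ × ℕ)).choose

lemma cd_surj : Function.Surjective cd :=
  (exists_surjective_nat (List Instr × ℕ × ℕ)).choose_spec

/-- The machine number `e` is used for words of length `n`. -/
def Good (e n : ℕ) : Prop :=
  4 * qb (cd e) n ≤ 2 ^ n ∧ (n + 1) * 2 ^ ((qb (cd e) n + 1) ^ 2) ≤ 2 ^ 2 ^ (n - 1)

/-- The slices of length `n` of the first machines, for all configurations of low entropy. -/
noncomputable def V (G : Lang) (n : ℕ) : Set (Fin (2 ^ n) → Bool) :=
  {v | ∃ e ≤ n, Good e n ∧ ∃ K : Conf, Bud K ∧ v = slice (fun x => decide (acc G K (cd e) x)) n}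

/-- The numerator of the approximation. -/
noncomputable def num (G : Lang) (k r : ℕ) (w : List Bool) : ℕ :=
  ⌊(2 : ℝ) ^ (r + 1) * ∑ n ∈ Finset.Icc (k + 1) (Nlim r w), pr (V G n) w⌋₊

/-- The bits of the numerators of the approximations, for the fixed part `G`. -/
noncomputable def bitsOf (G : Lang) : Lang := fun u => decide (
  (∃ j k r w, u = hq false false j k r w ∧ j < Nat.size (num G k r w)) ∨
  (∃ j k r w, u = hq false true j k r w ∧ Nat.testBit (num G k r w) j = true) ∨
  (∃ j k r w, u = hq true false j k r w ∧ j < r + 1))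

/-- The fixed part of the oracle for words of length less than `L`. -/
noncomputable def Hn : ℕ → Lang
  | 0 => fun _ => false
  | L + 1 => fun u => if u.length = L then bitsOf (Hn L) u else Hn L u

/-- The fixed part of the oracle. -/
noncomputable def H : Lang := fun u => Hn (u.length + 1) u

end Pool.Agent.RelG
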