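import Pool.Agent.RelM.Defs

/-!
# Genericity relative to an oracle

The genericity of Ambos-Spies, Fleischhack and Huwig: a language is `T`-generic if it meets every
condition of time `T` that is dense along it.
-/

set_option autoImplicit false

namespace Pool.Agent.RelG

open Pool.Agent.RelM

/-- The condition `C` (a set of words) is dense along the language `A`: infinitely many beginnings
of the characteristic sequence of `A` have a one-bit extension in `C`. -/
def DenseAlong (C A : Lang) : Prop :=
  ∀ N : ℕ, ∃ n : ℕ, N ≤ n ∧ ∃ b : Bool, C (pre A n ++ [b]) = true

/-- The language `A` meets the condition `C`: some beginning of the characteristic sequence of `A`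
is in `C`. -/
def Meets (A C : Lang) : Prop := ∃ n : ℕ, C (pre A n) = true

/-- `A` is `T`-generic relative to `O`: it meets every condition that is decided in time `T`
relative to `O` and is dense along `A`. -/
def Generic (O : Lang) (T : ℕ → ℕ) (A : Lang) : Prop :=
  ∀ (C : Lang) (P : List Instr), Decides O P C T → DenseAlong C A → Meets A C

end Pool.Agent.RelG
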