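import Pool.Agent.RelG.Targets
import Pool.Agent.RelM.VCARD

/-!
# Good machines (job GOOD)
-/

set_option autoImplicit false

namespace Pool.Agent.RelG

open Pool.Agent.RelM (Lang Instr Cfg step run Halts Decides E1 E2 NP pair triple binVal outVal
  Approx IsDensity str pre IsNullCover Null1 Null2 wq sq0 sq1 Asks qb slice pr dst Nlim hq Thin)

theorem good : T_GOOD := by
  intro e
  set a : ℕ := (cd e).2.1 + (cd e).2.2 + 3 with ha
  obtain ⟨n₁, hn₁⟩ := RelM.poly_lt_exp (2 * a + 4)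
  refine ⟨max n₁ 1, fun n hn => ?_⟩
  have h1 : 4 * (n + 2) ^ (2 * a + 4) ≤ 2 ^ n := hn₁ n (le_trans (le_max_left _ _) hn)
  have h2 : 1 ≤ n := le_trans (le_max_right _ _) hn
  have hq : qb (cd e) n = (n + 2) ^ a := rfl
  have hb : 1 ≤ (n + 2) ^ a := Nat.one_le_pow _ _ (by omega)
  refine ⟨?_, ?_⟩
  · rw [hq]
    refine le_trans (Nat.mul_le_mul_left _ (Nat.pow_le_pow_right (by omega) (by omega))) h1
  · rw [hq]
    have h3 : ((n + 2) ^ a + 1) ^ 2 ≤ 4 * (n + 2) ^ (2 * a) := by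
      have : (n + 2) ^ (2 * a) = (n + 2) ^ a * (n + 2) ^ a := by rw [two_mul, pow_add]
      rw [this]
      nlinarith
    have h4 : n + 1 ≤ 2 ^ n := Nat.lt_two_pow_self
    have h5 : n + ((n + 2) ^ a + 1) ^ 2 ≤ 2 ^ (n - 1) := by
      have h6 : 2 ^ n = 2 * 2 ^ (n - 1) := by
        rw [← pow_succ']
        congr 1
        omega
      have h7 : (n + 2) ^ (2 * a + 4) = (n + 2) ^ (2 * a) * (n + 2) ^ 4 := pow_add _ _ _
      have h8 : n + 16 ≤ (n + 2) ^ 4 := by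
        have : (n + 2) ^ 4 = n ^ 4 + 8 * n ^ 3 + 24 * n ^ 2 + 32 * n + 16 := by ring
        rw [this]
        nlinarith [Nat.zero_le (n ^ 4), Nat.zero_le (n ^ 3), Nat.zero_le (n ^ 2)]
      have h9 : 1 ≤ (n + 2) ^ (2 * a) := Nat.one_le_pow _ _ (by omega)
      have h10 : (n + 2) ^ (2 * a) * (n + 16) ≤ (n + 2) ^ (2 * a + 4) := by
        rw [h7]
        exact Nat.mul_le_mul_left _ h8
      have h11 : 2 * (n + ((n + 2) ^ a + 1) ^ 2) ≤ 4 * ((n + 2) ^ (2 * a) * (n + 16)) := by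
        nlinarith
      omega
    calc (n + 1) * 2 ^ (((n + 2) ^ a + 1) ^ 2) ≤ 2 ^ n * 2 ^ (((n + 2) ^ a + 1) ^ 2) :=
          Nat.mul_le_mul_right _ h4
      _ = 2 ^ (n + ((n + 2) ^ a + 1) ^ 2) := (pow_add _ _ _).symm
      _ ≤ 2 ^ 2 ^ (n - 1) := Nat.pow_le_pow_right (by norm_num) h5

end Pool.Agent.RelG
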