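import Pool.Agent.RelG.Targets
import Pool.Agent.RelM.HFIX
import Pool.Agent.RelM.LOC
import Pool.Agent.RelM.DSTAR

/-! # The fixed part of the oracle (job HFIX) -/

set_option autoImplicit false

namespace Pool.Agent.RelG

open Pool.Agent.RelM (Lang Instr Cfg step run Halts Decides E1 E2 NP pair triple binVal outVal
  Approx IsDensity str pre IsNullCover Null1 Null2 wq sq0 sq1 Asks qb slice pr dst Nlim hq Thin)
open Pool.Agent.RelM.HFIX_ (block_inj triple_inj hq_inj triple_length hq_length pair_length
  qb_bound str_length)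
open Set Classical

namespace HFIX_

lemma acc_congr (h3 : T_OLOC) {G G' : Lang} (K : Conf)
    (v : List Instr × ℕ × ℕ) (x : List Bool)
    (hG : ∀ u : List Bool, u.length + 2 ≤ qb v x.length → G u = G' u) :
    acc G K v x ↔ acc G' K v x := by
  unfold acc
  refine exists_congr fun y => and_congr_right fun hy => ?_
  have hrun : run (orc G' K) v.1 (pair x y) ((x.length + 2) ^ v.2.2) =
      run (orc G K) v.1 (pair x y) ((x.length + 2) ^ v.2.2) := by
    refine Pool.Agent.RelM.loc (orc G K) (orc G' K) v.1 (pair x y)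
      ((x.length + 2) ^ v.2.2) ?_ _ le_rfl
    intro s hs q hq
    have hl := Pool.Agent.RelM.len _ _ _ _ _ hq
    rw [pair_length] at hl
    have hb := qb_bound v x.length
    refine h3 G G' K (qb v x.length) hG q ?_
    omega
  rw [hrun]

lemma V_congr (h3 : T_OLOC) {G G' : Lang} (n : ℕ)
    (hG : ∀ u : List Bool, 4 * (u.length + 2) ≤ 2 ^ n → G u = G' u) : V G n = V G' n := by
  unfold V
  ext v
  simp only [mem_ofPred_eq]
  refine exists_congr fun e => and_congr_right fun _ => and_congr_right fun hgood =>
    exists_congr fun K => and_congr_right fun _ => ?_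
  have : slice (fun x => decide (acc G K (cd e) x)) n =
      slice (fun x => decide (acc G' K (cd e) x)) n := by
    funext j
    unfold slice
    rw [decide_eq_decide]
    refine acc_congr h3 K _ _ fun u hu => hG u ?_
    rw [str_length Pool.Agent.RelM.strlen] at hu
    have := hgood.1
    omega
  rw [this]

lemma num_congr (h3 : T_OLOC) {G G' : Lang} (k r : ℕ) (w : List Bool)
    (hG : ∀ u : List Bool, u.length ≤ r + w.length → G u = G' u) :
    num G k r w = num G' k r w := by
  have : ∑ n ∈ Finset.Icc (k + 1) (Nlim r w), pr (V G n) w =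
      ∑ n ∈ Finset.Icc (k + 1) (Nlim r w), pr (V G' n) w := by
    refine Finset.sum_congr rfl fun n hn => ?_
    rw [Finset.mem_Icc] at hn
    rw [V_congr h3 n fun u hu => hG u ?_]
    have h5 : 2 ^ n ≤ 2 ^ Nlim r w := Nat.pow_le_pow_right (by norm_num) hn.2
    have h6 : 2 ^ Nat.log 2 (w.length + r + 2) ≤ w.length + r + 2 :=
      Nat.pow_log_le_self 2 (by omega)
    unfold Nlim at h5
    rw [pow_succ] at h5
    omega
  unfold num
  rw [this]

/-- The bits depend only on the shorter words. -/
lemma bloc (h3 : T_OLOC) (G G' : Lang) (u : List Bool)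
    (hu : ∀ u' : List Bool, u'.length < u.length → G u' = G' u') : bitsOf G u = bitsOf G' u := by
  have key : ∀ (a b : Bool) (j k r : ℕ) (w : List Bool), u = hq a b j k r w →
      num G k r w = num G' k r w := by
    intro a b j k r w h
    refine num_congr h3 k r w fun u' hu' => hu u' ?_
    rw [h, hq_length]
    omega
  unfold bitsOf
  rw [decide_eq_decide]
  refine or_congr ?_ (or_congr ?_ Iff.rfl)
  · refine exists_congr fun j => exists_congr fun k => exists_congr fun r =>
      exists_congr fun w => and_congr_right fun h => ?_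
    rw [key _ _ _ _ _ _ h]
  · refine exists_congr fun j => exists_congr fun k => exists_congr fun r =>
      exists_congr fun w => and_congr_right fun h => ?_
    rw [key _ _ _ _ _ _ h]

lemma Hn_eq (u : List Bool) : ∀ L : ℕ, u.length < L → Hn L u = H u := by
  intro L
  induction L with
  | zero => intro h; omega
  | succ L ih =>
    intro h
    by_cases hL : u.length = L
    · unfold H
      rw [hL]
    · have : Hn (L + 1) u = Hn L u := by
        rw [Hn]
        exact if_neg hL
      rw [this]
      exact ih (by omega)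

end HFIX_

open HFIX_

theorem hfix (h : T_OLOC) : T_HFIX := by
  intro u
  have h1 : H u = bitsOf (Hn u.length) u := by
    unfold H
    rw [Hn]
    exact if_pos rfl
  rw [h1]
  exact bloc h _ _ u fun u' hu' => Hn_eq u' _ hu'

theorem bits : T_BITS := by
  intro G j k r w
  unfold bitsOf
  refine ⟨?_, ?_, ?_⟩
  · rw [decide_eq_true_eq]
    constructor
    · rintro (⟨j', k', r', w', h, h'⟩ | ⟨j', k', r', w', h, h'⟩ | ⟨j', k', r', w', h, h'⟩)
      · obtain ⟨-, -, rfl, rfl, rfl, rfl⟩ := hq_inj h
        exact h'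
      · obtain ⟨-, h2, -⟩ := hq_inj h
        exact absurd h2 (by decide)
      · obtain ⟨h2, -⟩ := hq_inj h
        exact absurd h2 (by decide)
    · intro h
      exact Or.inl ⟨j, k, r, w, rfl, h⟩
  · rw [decide_eq_true_eq]
    constructor
    · rintro (⟨j', k', r', w', h, h'⟩ | ⟨j', k', r', w', h, h'⟩ | ⟨j', k', r', w', h, h'⟩)
      · obtain ⟨-, h2, -⟩ := hq_inj h
        exact absurd h2 (by decide)
      · obtain ⟨-, -, rfl, rfl, rfl, rfl⟩ := hq_inj h
        exact h'
      · obtain ⟨h2, -⟩ := hq_inj h
        exact absurd h2 (by decide)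
    · intro h
      exact Or.inr (Or.inl ⟨j, k, r, w, rfl, h⟩)
  · rw [decide_eq_true_eq]
    constructor
    · rintro (⟨j', k', r', w', h, h'⟩ | ⟨j', k', r', w', h, h'⟩ | ⟨j', k', r', w', h, h'⟩)
      · obtain ⟨h2, -⟩ := hq_inj h
        exact absurd h2 (by decide)
      · obtain ⟨h2, -⟩ := hq_inj h
        exact absurd h2 (by decide)
      · obtain ⟨-, -, rfl, rfl, rfl, rfl⟩ := hq_inj h
        exact h'
    · intro h
      exact Or.inr (Or.inr ⟨j, k, r, w, rfl, h⟩)

theorem numsize : T_NUM := by
  intro G k r w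
  rw [Nat.size_le]
  have h1 : ∑ n ∈ Finset.Icc (k + 1) (Nlim r w), pr (V G n) w ≤ (Nlim r w : ℝ) := by
    refine (Finset.sum_le_card_nsmul _ _ 1 fun n _ => (Pool.Agent.RelM.prr n (V G n) w).2).trans ?_
    rw [Nat.card_Icc, nsmul_eq_mul, mul_one]
    exact_mod_cast (by omega : Nlim r w + 1 - (k + 1) ≤ Nlim r w)
  have h2 : num G k r w ≤ 2 ^ (r + 1) * Nlim r w := by
    unfold num
    refine Nat.floor_le_of_le ?_
    push_cast
    exact mul_le_mul_of_nonneg_left h1 (by positivity)
  have h3 : Nlim r w < 2 ^ (w.length + r + 3) := by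
    have h4 : Nat.log 2 (w.length + r + 2) ≤ w.length + r + 2 := Nat.log_le_self _ _
    have h5 : w.length + r + 3 < 2 ^ (w.length + r + 3) := Nat.lt_two_pow_self
    unfold Nlim
    omega
  calc num G k r w ≤ 2 ^ (r + 1) * Nlim r w := h2
    _ < 2 ^ (r + 1) * 2 ^ (w.length + r + 3) :=
      Nat.mul_lt_mul_of_pos_left h3 (by positivity)
    _ = 2 ^ (r + 1 + (w.length + r + 3)) := (pow_add _ _ _).symm
    _ ≤ 2 ^ (2 * (triple k r w).length + 4) := by
      rw [triple_length]
      exact Nat.pow_le_pow_right (by norm_num) (by omega)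

end Pool.Agent.RelG
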