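import Pool.Agent.RelG.Targets
import Pool.Agent.RelM.LOC

/-!
# The runs keep their values (job HID)
-/

set_option autoImplicit false

namespace Pool.Agent.RelG

open Pool.Agent.RelM (Lang Instr Cfg step run Halts Decides E1 E2 NP pair triple binVal outVal
  Approx IsDensity str pre IsNullCover Null1 Null2 wq sq0 sq1 Asks qb slice pr dst Nlim hq Thin)

namespace HID_

lemma beg_succ (K : Conf) (κ n : ℕ) : beg K κ (n + 1) = beg K κ n ++ [(K κ n).isSome] := by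
  unfold beg
  rw [List.range_succ, List.map_append]
  rfl

lemma beg_len (K : Conf) (κ n : ℕ) : (beg K κ n).length = n := by
  unfold beg
  rw [List.length_map, List.length_range]

lemma beg_cut (hLV : T_LV) (K : Conf) (κ n m r : ℕ) (hm : m ≤ n) (hr : rk κ n ≤ r) :
    beg (cut r K) κ m = beg K κ m := by
  unfold beg
  refine List.map_congr_left fun j hj => ?_
  have hj' : j < m := List.mem_range.1 hj
  have h1 : rk κ j < rk κ n := hLV.2.2.2.2.2.1 κ j n (lt_of_lt_of_le hj' hm)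
  unfold cut
  rw [if_pos (lt_of_lt_of_le h1 hr)]

/-- The run is the same for the oracle of every configuration between `cut (rk κ n) K` and `K`. -/
lemma run_eq (hLV : T_LV) (hD : T_ODIFF) (G : Lang) (K : Conf) (hK : Nice G K) (κ n e : ℕ)
    (b : Bool) (he : e ≤ ln n) (hκ : (req e).1 = κ) (K' : Conf)
    (hK' : ∀ κ₁ n₁, cut (rk κ n) K κ₁ n₁ ≠ K' κ₁ n₁ → rk κ n ≤ rk κ₁ n₁ ∧ K' κ₁ n₁ = K κ₁ n₁) :
    ∀ s ≤ tm κ (n + 1), run (orc G K') (req e).2 (beg K κ n ++ [b]) s =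
      run (orc G (cut (rk κ n) K)) (req e).2 (beg K κ n ++ [b]) s := by
  refine RelM.loc (orc G (cut (rk κ n) K)) (orc G K') (req e).2 (beg K κ n ++ [b])
    (tm κ (n + 1)) fun s hs q hq => ?_
  by_contra hne
  obtain ⟨κ₁, n₁, h1, h2⟩ := hD G (cut (rk κ n) K) K' q hne
  obtain ⟨h3, h4⟩ := hK' κ₁ n₁ h1
  have h5 : cut (rk κ n) K κ₁ n₁ = none := by
    unfold cut
    rw [if_neg (not_lt.2 h3)]
  rcases h2 with ⟨y, hy, hy'⟩ | h2
  · have h6 : K κ₁ n₁ = some y := by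
      rcases hy' with hy' | hy'
      · rw [h5] at hy'; exact absurd hy' (by simp)
      · rw [← h4]; exact hy'
    refine ((hK κ₁ n₁).2 y h6).2 κ n h3 ⟨e, b, s, he, hκ, hs, ?_⟩
    rw [beg_cut hLV K κ n n _ le_rfl le_rfl, ← hy]
    exact hq
  · have h6 := RelM.len _ _ _ _ _ hq
    rw [List.length_append, beg_len, List.length_singleton] at h6
    have h7 := hLV.2.2.2.2.1 κ n
    have h8 : 2 ^ lv κ (ln n) ≤ 2 ^ lv κ₁ (ln n₁) :=
      Nat.pow_le_pow_right (by norm_num) (hLV.2.2.2.2.2.2 κ n κ₁ n₁ h3)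
    omega

lemma between_self (K : Conf) (κ n : ℕ) (κ₁ n₁ : ℕ) (h : cut (rk κ n) K κ₁ n₁ ≠ K κ₁ n₁) :
    rk κ n ≤ rk κ₁ n₁ ∧ K κ₁ n₁ = K κ₁ n₁ := by
  refine ⟨?_, rfl⟩
  by_contra h1
  refine h ?_
  unfold cut
  rw [if_pos (not_le.1 h1)]

lemma between_cut (K : Conf) (κ n r : ℕ) (κ₁ n₁ : ℕ) (hr : rk κ n ≤ r)
    (h : cut (rk κ n) K κ₁ n₁ ≠ cut r K κ₁ n₁) :
    rk κ n ≤ rk κ₁ n₁ ∧ cut r K κ₁ n₁ = K κ₁ n₁ := by
  have h1 : rk κ n ≤ rk κ₁ n₁ := by
    by_contra h1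
    refine h ?_
    unfold cut
    rw [if_pos (not_le.1 h1), if_pos (lt_of_lt_of_le (not_le.1 h1) hr)]
  refine ⟨h1, ?_⟩
  by_contra h2
  refine h ?_
  have h3 : ¬ rk κ₁ n₁ < r := by
    intro h3
    refine h2 ?_
    unfold cut
    rw [if_pos h3]
  unfold cut
  rw [if_neg (not_lt.2 h1), if_neg h3]

end HID_

open HID_

theorem hid (hLV : T_LV) (hD : T_ODIFF) : T_HID := by
  intro G K hK κ n e b he hκ r hr
  have hlen : (beg K κ n ++ [b]).length = n + 1 := by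
    rw [List.length_append, beg_len, List.length_singleton]
  unfold ac
  rw [hlen, run_eq hLV hD G K hK κ n e b he hκ (cut r K)
      (fun κ₁ n₁ => between_cut K κ n r κ₁ n₁ hr) _ le_rfl,
    run_eq hLV hD G K hK κ n e b he hκ K (fun κ₁ n₁ => between_self K κ n κ₁ n₁) _ le_rfl]

theorem rule (hLV : T_LV) (hD : T_ODIFF) : T_RULE := by
  intro G K hK κ n
  have hb : beg (cut (rk κ n) K) κ n = beg K κ n := beg_cut hLV K κ n n _ le_rfl le_rfl
  have hac : ∀ e, e ≤ ln n → (req e).1 = κ → ∀ b : Bool,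
      (ac G (cut (rk κ n) K) κ (req e).2 (beg (cut (rk κ n) K) κ n ++ [b]) ↔
        ac G K κ (req e).2 (beg K κ n ++ [b])) := by
    intro e he hκ b
    rw [hb]
    exact hid hLV hD G K hK κ n e b he hκ _ le_rfl
  have hmet : ∀ e, (req e).1 = κ → (Met G (cut (rk κ n) K) κ n e ↔ Met G K κ n e) := by
    intro e hκ
    unfold Met
    refine exists_congr fun n' => and_congr_right fun hn' => and_congr_right fun he' => ?_
    have hrk : rk κ n' ≤ rk κ n := (hLV.2.2.2.2.2.1 κ n' n hn').le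
    rw [beg_cut hLV K κ n (n' + 1) _ hn' le_rfl, beg_succ]
    exact hid hLV hD G K hK κ n' e _ he' hκ _ hrk
  have hwant : ∀ e, Want G (cut (rk κ n) K) κ n e ↔ Want G K κ n e := by
    intro e
    unfold Want
    refine and_congr_right fun he => and_congr_right fun hκ => ?_
    rw [hmet e hκ]
    refine and_congr_right fun _ => exists_congr fun b => hac e he hκ b
  rw [(hK κ n).1]
  unfold Set1 Acts
  refine exists_congr fun e => ?_
  rw [hwant e]
  have h1 : (∀ e' < e, ¬ Want G (cut (rk κ n) K) κ n e') ↔ (∀ e' < e, ¬ Want G K κ n e') :=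
    forall_congr' fun e' => forall_congr' fun _ => not_congr (hwant e')
  rw [h1]
  constructor
  · rintro ⟨⟨h2, h3⟩, h4⟩
    exact ⟨⟨h2, h3⟩, (hac e h2.1 h2.2.1 true).1 h4⟩
  · rintro ⟨⟨h2, h3⟩, h4⟩
    exact ⟨⟨h2, h3⟩, (hac e h2.1 h2.2.1 true).2 h4⟩

end Pool.Agent.RelG
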