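import Pool.Agent.RelG.Targets

/-!
# Levels and times
-/

set_option autoImplicit false

namespace Pool.Agent.RelG

namespace LV_

theorem mono (κ m m' : ℕ) (h : m ≤ m') : lv κ m ≤ lv κ m' := by
  unfold lv
  split_ifs with hk
  · exact Nat.pow_le_pow_left (by omega) _
  · exact Nat.mul_le_mul_left _ (by omega)

theorem four (κ m : ℕ) : 4 * (m + 2) ≤ lv κ m := by
  unfold lv
  split_ifs with hk
  · have h1 : 2 ^ 2 ≤ (m + 2) ^ (κ + 7) :=
      (Nat.pow_le_pow_right (by norm_num) (by omega)).trans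
        (Nat.pow_le_pow_left (by omega) _)
    calc 4 * (m + 2) ≤ (m + 2) ^ (κ + 7) * (m + 2) := Nat.mul_le_mul_right _ (by omega)
      _ = (m + 2) ^ (κ + 8) := (pow_succ _ _).symm
  · exact Nat.mul_le_mul_right _ (by omega)

theorem big (κ m : ℕ) : κ + 64 ≤ lv κ m := by
  unfold lv
  split_ifs with hk
  · have h1 : 2 ^ (κ + 8) ≤ (m + 2) ^ (κ + 8) := Nat.pow_le_pow_left (by omega) _
    have h2 : κ < 2 ^ κ := Nat.lt_two_pow_self
    rw [pow_add] at h1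
    omega
  · calc κ + 64 = (κ + 64) * 1 := (mul_one _).symm
      _ ≤ (κ + 64) * (m + 2) := Nat.mul_le_mul_left _ (by omega)

theorem lt_ln (n : ℕ) : n + 1 < 2 ^ (ln n + 1) := by
  unfold ln
  exact Nat.lt_pow_succ_log_self (by norm_num) _

theorem sq (κ n : ℕ) : tm κ (n + 1) ^ 2 ≤ 2 ^ lv κ (ln n) := by
  unfold tm lv
  by_cases hk : κ % 2 = 0
  · rw [if_pos hk, if_pos hk, ← pow_mul]
    refine Nat.pow_le_pow_right (by norm_num) ?_
    show (Nat.log 2 (n + 1) + 2) ^ (κ / 2) * 2 ≤ (Nat.log 2 (n + 1) + 2) ^ (κ + 8)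
    calc (Nat.log 2 (n + 1) + 2) ^ (κ / 2) * 2
        ≤ (Nat.log 2 (n + 1) + 2) ^ (κ / 2) * (Nat.log 2 (n + 1) + 2) :=
          Nat.mul_le_mul_left _ (by omega)
      _ = (Nat.log 2 (n + 1) + 2) ^ (κ / 2 + 1) := (pow_succ _ _).symm
      _ ≤ (Nat.log 2 (n + 1) + 2) ^ (κ + 8) := Nat.pow_le_pow_right (by omega) (by omega)
  · rw [if_neg hk, if_neg hk]
    have h1 := lt_ln n
    have h2 : n + 1 + 2 ≤ 2 ^ (ln n + 2) := by
      have h3 : 2 ^ (ln n + 2) = 2 ^ (ln n + 1) * 2 := pow_succ _ _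
      have h4 : 1 ≤ 2 ^ (ln n) := Nat.one_le_two_pow
      have h5 : 2 ^ (ln n + 1) = 2 ^ (ln n) * 2 := pow_succ _ _
      omega
    calc ((n + 1 + 2) ^ (κ / 2)) ^ 2 ≤ ((2 ^ (ln n + 2)) ^ (κ / 2)) ^ 2 :=
          Nat.pow_le_pow_left (Nat.pow_le_pow_left h2 _) _
      _ = 2 ^ ((ln n + 2) * (κ / 2) * 2) := by rw [← pow_mul, ← pow_mul, mul_assoc]
      _ ≤ 2 ^ ((κ + 64) * (ln n + 2)) := by
          refine Nat.pow_le_pow_right (by norm_num) ?_
          have h6 : κ / 2 * 2 ≤ κ + 64 := by omega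
          calc (ln n + 2) * (κ / 2) * 2 = κ / 2 * 2 * (ln n + 2) := by ring
            _ ≤ (κ + 64) * (ln n + 2) := Nat.mul_le_mul_right _ h6

theorem five (κ n : ℕ) : n + 1 + tm κ (n + 1) < 2 ^ lv κ (ln n) := by
  have h1 := four κ (ln n)
  have h2 := sq κ n
  have h3 := lt_ln n
  set L := lv κ (ln n) with hL
  have h4 : 2 ^ (ln n + 1) ≤ 2 ^ (L - 1) := Nat.pow_le_pow_right (by norm_num) (by omega)
  have h5 : 2 ^ L = 2 ^ (L - 1) * 2 := by
    rw [← pow_succ]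
    congr 1
    omega
  have h6 : tm κ (n + 1) ≤ 2 ^ (L - 1) := by
    have h7 : tm κ (n + 1) ^ 2 ≤ (2 ^ (L - 1)) ^ 2 := by
      refine h2.trans ?_
      rw [← pow_mul]
      exact Nat.pow_le_pow_right (by norm_num) (by omega)
    exact (Nat.pow_le_pow_iff_left (by norm_num)).mp h7
  omega

theorem ln_mono {n n' : ℕ} (h : n ≤ n') : ln n ≤ ln n' := by
  unfold ln
  exact Nat.log_mono_right (by omega)

theorem rk_lt (κ n n' : ℕ) (h : n < n') : rk κ n < rk κ n' := by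
  unfold rk
  have h1 : 2 ^ lv κ (ln n) ≤ 2 ^ lv κ (ln n') :=
    Nat.pow_le_pow_right (by norm_num) (mono κ _ _ (ln_mono h.le))
  omega

theorem seven (κ n κ' n' : ℕ) (h : rk κ n ≤ rk κ' n') : lv κ (ln n) ≤ lv κ' (ln n') := by
  have h1 := five κ' n'
  unfold rk at h
  have h2 : 2 ^ lv κ (ln n) < 2 ^ (lv κ' (ln n') + 1) := by
    rw [pow_succ]
    omega
  have h3 := (Nat.pow_lt_pow_iff_right (by norm_num : 1 < 2)).mp h2
  omega

end LV_

theorem lvfacts : T_LV :=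
  ⟨LV_.mono, LV_.four, LV_.big, LV_.sq, LV_.five, LV_.rk_lt, LV_.seven⟩

end Pool.Agent.RelG
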