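import Pool.Agent.RelG.Targets
import Pool.Agent.RelM.MAIN

/-!
# Assembly
-/

set_option autoImplicit false

namespace Pool.Agent.RelG

open Pool.Agent.RelM (Lang Instr Cfg step run Halts Decides E1 E2 NP pair triple binVal outVal
  Approx IsDensity str pre IsNullCover Null1 Null2 wq sq0 sq1 Asks qb slice pr dst Nlim hq Thin)

lemma tm_odd (c : ℕ) : tm (2 * c + 1) = fun l => (l + 2) ^ c := by
  funext l
  unfold tm
  rw [if_neg (by omega), show (2 * c + 1) / 2 = c by omega]

lemma tm_even (c : ℕ) : tm (2 * c) = fun l => 2 ^ ((Nat.log 2 l + 2) ^ c) := by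
  funext l
  unfold tm
  rw [if_pos (by omega), show (2 * c) / 2 = c by omega]

theorem main_of (hCONF : T_CONF) (hRULE : T_RULE) (hGEN : T_GEN) (hBUD : T_BUD) (hNPG : T_NPG)
    (hE1G : T_E1G) (hE2G : T_E2G) (hTHIN : T_THIN) (hGOOD : T_GOOD) (hHF : T_HFIX)
    (hB : T_BITS) (hNUM : T_NUM) (hOTT : T_OTT)
    (hREAD : RelM.T_READ) (hDD : RelM.T_DDENS) (hDL : RelM.T_DLAM) (hDC : RelM.T_DCOV)
    (hDA : RelM.T_DAPP) (hPR : RelM.T_PR) : T_MAIN := by
  obtain ⟨K, hK⟩ := hCONF H
  have hrule := hRULE H K hK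
  have hlen : ∀ κ n y, K κ n = some y → y.length = lv κ (ln n) := fun κ n y h => ((hK κ n).2 y h).1
  have hbud : Bud K := hBUD H K hrule hlen
  refine ⟨orc H K, ?_, ?_, ?_⟩
  · -- the null cover
    refine ⟨dst (V H), ?_, ?_⟩
    · intro k
      refine ⟨hDD _ (hTHIN H) k, hDL _ (hTHIN H) k, ?_⟩
      intro A hA
      obtain ⟨P, j, k', hPA⟩ := hA
      refine hDC _ (hTHIN H) A ?_ k
      have hacc : ∀ x : List Bool, A x = true ↔ acc H K (P, j, k') x := fun x => (hPA x).2
      obtain ⟨e, he⟩ := cd_surj (P, j, k')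
      obtain ⟨n₀, hn₀⟩ := hGOOD e
      intro N
      refine ⟨max N (max e n₀), le_max_left _ _, e, ?_, ?_, K, hbud, ?_⟩
      · exact le_trans (le_max_left _ _) (le_max_right _ _)
      · exact hn₀ _ (le_trans (le_max_right _ _) (le_max_right _ _))
      · rw [he]
        congr 1
        funext x
        rw [Bool.eq_iff_iff, hacc x]
        simp
    · obtain ⟨P, c, hPc⟩ := hREAD
      refine ⟨P, c, ?_⟩
      intro k r w
      have h := hPc (orc H K) (num H)
        (fun j k r w => by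
          rw [hOTT, hHF]; exact (hB H j k r w).1)
        (fun j k r w => by
          rw [hOTT, hHF]; exact (hB H j k r w).2.1)
        (fun j k r w => by
          rw [hOTT, hHF]; exact (hB H j k r w).2.2)
        (hNUM H) k r w
      refine ⟨h.1, ?_⟩
      simp only
      rw [h.2]
      have hd := hDA _ (hTHIN H) k r w
      set s : ℝ := ∑ n ∈ Finset.Icc (k + 1) (Nlim r w), pr (V H n) w with hs
      have hs0 : 0 ≤ s := Finset.sum_nonneg fun n _ => (hPR n _ w).1
      have hf1 : (num H k r w : ℝ) ≤ 2 ^ (r + 1) * s := Nat.floor_le (by positivity)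
      have hf2 : (2 : ℝ) ^ (r + 1) * s < (num H k r w : ℝ) + 1 := Nat.lt_floor_add_one _
      have h2 : (0 : ℝ) < 2 ^ (r + 1) := by positivity
      have h3 : |(num H k r w : ℝ) / 2 ^ (r + 1) - s| ≤ (1 / 2 : ℝ) ^ (r + 1) := by
        rw [abs_le]
        constructor
        · rw [le_sub_iff_add_le, one_div, inv_pow]
          have : (-((2 : ℝ) ^ (r + 1))⁻¹ + s) ≤ (num H k r w : ℝ) / 2 ^ (r + 1) := by
            rw [le_div_iff₀ h2]
            have : (-((2 : ℝ) ^ (r + 1))⁻¹ + s) * 2 ^ (r + 1) = 2 ^ (r + 1) * s - 1 := by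
              field_simp
              ring
            rw [this]; linarith
          exact this
        · rw [sub_le_iff_le_add, div_le_iff₀ h2]
          have : ((1 / 2 : ℝ) ^ (r + 1) + s) * 2 ^ (r + 1) = 2 ^ (r + 1) * s + 1 := by
            rw [one_div, inv_pow]
            field_simp
            ring
          rw [this]; linarith
      have h4 : (1 / 2 : ℝ) ^ r = (1 / 2 : ℝ) ^ (r + 1) + (1 / 2 : ℝ) ^ (r + 1) := by
        rw [pow_succ]; ring
      rw [h4]
      calc |(num H k r w : ℝ) / 2 ^ (r + 1) - dst (V H) k w|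
          = |((num H k r w : ℝ) / 2 ^ (r + 1) - s) - (dst (V H) k w - s)| := by ring_nf
        _ ≤ |(num H k r w : ℝ) / 2 ^ (r + 1) - s| + |dst (V H) k w - s| := abs_sub _ _
        _ ≤ _ := add_le_add h3 hd
  · intro c
    refine ⟨lg K (2 * c + 1), ⟨hNPG H K hlen _, hE1G H K c⟩, ?_⟩
    rw [← tm_odd]
    exact hGEN H K hrule _
  · intro c
    refine ⟨lg K (2 * c), ⟨hNPG H K hlen _, hE2G H K c⟩, ?_⟩
    rw [← tm_even]
    exact hGEN H K hrule _

end Pool.Agent.RelG
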