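import Pool.Agent.RelG.Targets
import Pool.Agent.RelM.E2R
import Pool.Agent.RelM.LOC

/-!
# Job MEM: the languages of the families are in the classes
-/

set_option autoImplicit false

namespace Pool.Agent.RelG

open Pool.Agent.RelM (Lang Instr Cfg step run Halts Decides E1 E2 NP pair triple binVal outVal
  Approx IsDensity str pre IsNullCover Null1 Null2 wq sq0 sq1 Asks qb slice pr dst Nlim hq Thin)

namespace MEM_

lemma strlen' (n : ℕ) : (str n).length = ln n := RelM.strlen n

open Classical in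
lemma lg_str (K : Conf) (κ n : ℕ) : lg K κ (str n) = true ↔ (K κ n).isSome = true := by
  unfold lg
  rw [decide_eq_true_eq]
  constructor
  · rintro ⟨n', h, h'⟩
    rw [← RelM.strinj h]
    exact h'
  · intro h
    exact ⟨n, rfl, h⟩

lemma lv_le (κ m : ℕ) : lv κ m ≤ (m + 2) ^ (κ + 65) := by
  unfold lv
  split_ifs with h
  · exact Nat.pow_le_pow_right (by omega) (by omega)
  · rw [show κ + 65 = (κ + 64) + 1 by ring, pow_succ]
    apply Nat.mul_le_mul_right
    exact le_trans (le_of_lt Nat.lt_two_pow_self) (Nat.pow_le_pow_left (by omega) _)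

lemma time_le (a κ : ℕ) : 7 * 2 ^ a + κ + 12 ≤ 2 ^ (a + κ + 5) := by
  have h1 : κ + 12 ≤ 2 ^ (κ + 4) := by
    have : κ < 2 ^ κ := Nat.lt_two_pow_self
    have h2 : 2 ^ (κ + 4) = 16 * 2 ^ κ := by rw [pow_add]; ring
    omega
  have h2 : 2 ^ (κ + 4) ≤ 2 ^ (a + κ + 4) := Nat.pow_le_pow_right (by norm_num) (by omega)
  have h3 : 7 * 2 ^ a ≤ 2 ^ (a + κ + 4) := by
    have : 2 ^ (a + κ + 4) = 2 ^ a * (16 * 2 ^ κ) := by
      rw [add_assoc, pow_add, pow_add]; ring
    rw [this, mul_comm]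
    have : 1 ≤ 2 ^ κ := Nat.one_le_two_pow
    exact Nat.mul_le_mul_left _ (by omega)
  have h4 : 2 ^ (a + κ + 5) = 2 ^ (a + κ + 4) + 2 ^ (a + κ + 4) := by
    rw [pow_succ]; ring
  omega

/-- The program for the family `κ` decides its language. -/
lemma dec (h0 : T_OSQ0) (h1 : T_OSQ1) (G : Lang) (K : Conf) (κ : ℕ) (T : ℕ → ℕ)
    (hT : ∀ m, 2 ^ (lv κ m + κ + 5) ≤ T m) : Decides (orc G K) (RelM.eprog κ) (lg K κ) T := by
  intro x
  obtain ⟨n, rfl⟩ := RelM.strsurj x
  set O := orc G K with hO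
  set M := 2 ^ lv κ (str n).length with hM
  have hrun := RelM.eprog_run O κ M (str n)
    (fun m hm h => by
      have := (h0 G K κ (str n) m).1 h
      omega) ((h0 G K κ (str n) M).2 le_rfl)
  have hhalt : Halts O (RelM.eprog κ) (str n) (7 * M + κ + 12) := by
    unfold Halts
    rw [hrun, RelM.eprog_length]
  have htime : 7 * M + κ + 12 ≤ T (str n).length := (time_le _ _).trans (hT _)
  have hrun' : run O (RelM.eprog κ) (str n) (T (str n).length) =
      run O (RelM.eprog κ) (str n) (7 * M + κ + 12) := RelM.stay _ _ _ _ _ hhalt htime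
  constructor
  · unfold Halts at hhalt ⊢
    rw [hrun']
    exact hhalt
  · rw [hrun', hrun]
    simp only [Function.update_self, List.cons.injEq, and_true]
    rw [Bool.eq_iff_iff, hO, h1 G K κ n M, lg_str, hM, strlen']
    simp

end MEM_

open MEM_

theorem npg (hq : T_OWQ) : T_NPG := by
  intro G K hK κ
  refine ⟨RelM.vprog κ, κ + 65, κ + 5, ?_⟩
  intro x
  obtain ⟨n, rfl⟩ := RelM.strsurj x
  have htime : κ + 5 ≤ ((str n).length + 2) ^ (κ + 5) :=
    le_trans (le_of_lt Nat.lt_two_pow_self) (Nat.pow_le_pow_left (by omega) _)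
  have hhalt : ∀ y, Halts (orc G K) (RelM.vprog κ) (pair (str n) y) (κ + 5) := by
    intro y
    unfold Halts
    rw [RelM.vprog_length]
    by_cases h : orc G K (wq κ (str n) y) = true
    · exact (RelM.vprog_run_yes _ κ _ y h).1.ge
    · exact (RelM.vprog_run_no _ κ _ y h).1.ge
  have hrun : ∀ y, run (orc G K) (RelM.vprog κ) (pair (str n) y)
      (((str n).length + 2) ^ (κ + 5)) =
      run (orc G K) (RelM.vprog κ) (pair (str n) y) (κ + 5) :=
    fun y => RelM.stay _ _ _ _ _ (hhalt y) htime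
  have hyes : ∀ y, (run (orc G K) (RelM.vprog κ) (pair (str n) y) (κ + 5)).st 1 = [true] ↔
      orc G K (wq κ (str n) y) = true := by
    intro y
    constructor
    · intro h
      by_contra hno
      rw [(RelM.vprog_run_no _ κ _ y hno).2] at h
      simp at h
    · intro h
      exact (RelM.vprog_run_yes _ κ _ y h).2
  constructor
  · intro y _
    have := hhalt y
    unfold Halts at this ⊢
    rw [hrun y]
    exact this
  · rw [lg_str]
    constructor
    · intro hR
      obtain ⟨y, hy⟩ := Option.isSome_iff_exists.1 hR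
      refine ⟨y, ?_, ?_⟩
      · rw [hK κ n y hy, strlen']
        exact lv_le _ _
      · rw [hrun, hyes]
        exact (hq G K κ n y).2 hy
    · rintro ⟨y, -, hy⟩
      rw [hrun, hyes] at hy
      rw [(hq G K κ n y).1 hy]
      rfl

theorem e1g (h0 : T_OSQ0) (h1 : T_OSQ1) : T_E1G := by
  intro G K c
  refine ⟨RelM.eprog (2 * c + 1), 6 * c + 136, dec h0 h1 G K _ _ ?_⟩
  intro m
  apply Nat.pow_le_pow_right (by norm_num)
  have h : lv (2 * c + 1) m = (2 * c + 1 + 64) * (m + 2) := by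
    unfold lv
    rw [if_neg (by omega)]
  rw [h]
  nlinarith

theorem e2g (h0 : T_OSQ0) (h1 : T_OSQ1) : T_E2G := by
  intro G K c
  refine ⟨RelM.eprog (2 * c), 2 * c + 12, dec h0 h1 G K _ _ ?_⟩
  intro m
  apply Nat.pow_le_pow_right (by norm_num)
  have h : lv (2 * c) m = (m + 2) ^ (2 * c + 8) := by
    unfold lv
    rw [if_pos (by omega)]
  rw [h]
  have h5 : (m + 2) ^ (2 * c + 12) = (m + 2) ^ (2 * c + 8) * (m + 2) ^ 4 := by
    rw [← pow_add]
  have h6 : 16 ≤ (m + 2) ^ 4 := by
    calc 16 = 2 ^ 4 := by norm_num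
      _ ≤ _ := Nat.pow_le_pow_left (by omega) _
  have h7 : 2 * c + 8 < (m + 2) ^ (2 * c + 8) :=
    lt_of_lt_of_le Nat.lt_two_pow_self (Nat.pow_le_pow_left (by omega) _)
  have h8 : 0 < (m + 2) ^ (2 * c + 8) := by positivity
  rw [h5]
  nlinarith

end Pool.Agent.RelG
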