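import Pool.Agent.RelG.Targets
import Pool.Agent.RelM.LOC
import Pool.Agent.RelM.QRY
import Pool.Agent.RelM.HFIX

/-!
# Counting slices (job THIN)
-/

set_option autoImplicit false

namespace Pool.Agent.RelG

open Pool.Agent.RelM (Lang Instr Cfg step run Halts Decides E1 E2 NP pair triple binVal outVal
  Approx IsDensity str pre IsNullCover Null1 Null2 wq sq0 sq1 Asks qb slice pr dst Nlim hq Thin)

namespace THIN_

/-- The words of length at most `B` that show keys. -/
def sec (K : Conf) (B : ℕ) : Set (List Bool) :=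
  {q | q.length ≤ B ∧ ∃ κ n y, q = wq κ (str n) y ∧ K κ n = some y}

lemma paid (hLV : T_LV) (κ n : ℕ) (y : List Bool) (m : ℕ) (hy : y.length = lv κ (ln n))
    (hm : 2 ^ lv κ (ln n) ≤ m) : (wq κ (str n) y).length ≤ (sq1 κ (str n) m).length := by
  have h1 : (str n).length = ln n := Pool.Agent.RelM.strlen n
  rw [Pool.Agent.RelM.wq_length, Pool.Agent.RelM.sq1_length, h1, hy]
  have h2 := hLV.2.1 κ (ln n)
  have h3 : lv κ (ln n) ≤ 2 ^ (lv κ (ln n) - 1) := by
    have := Nat.lt_two_pow_self (n := lv κ (ln n) - 1)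
    omega
  have h4 : 2 ^ lv κ (ln n) = 2 * 2 ^ (lv κ (ln n) - 1) := by
    rw [← pow_succ']
    congr 1
    omega
  omega

lemma orc_mono (hLV : T_LV) (G : Lang) (K K' : Conf) (B : ℕ)
    (hK : ∀ κ n y, K κ n = some y → y.length = lv κ (ln n))
    (h : sec K B ⊆ sec K' B) (q : List Bool) (hq : q.length ≤ B) (ho : orc G K q = true) :
    orc G K' q = true := by
  simp only [orc, decide_eq_true_eq] at ho ⊢
  rcases ho with ⟨κ, n, y, h1, h2⟩ | h1 | ⟨κ, n, m, h1, h2, h3⟩ | h1
  · have : q ∈ sec K B := ⟨hq, κ, n, y, h1, h2⟩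
    obtain ⟨-, κ', n', y', h3, h4⟩ := h this
    exact Or.inl ⟨κ', n', y', h3, h4⟩
  · exact Or.inr (Or.inl h1)
  · obtain ⟨y, hy⟩ := Option.isSome_iff_exists.1 h3
    have h4 := paid hLV κ n y m (hK κ n y hy) h2
    have : wq κ (str n) y ∈ sec K B := ⟨by rw [h1] at hq; omega, κ, n, y, rfl, hy⟩
    obtain ⟨-, κ', n', y', h5, h6⟩ := h this
    obtain ⟨e1, e2, e3⟩ := Pool.Agent.RelM.wq_inj h5
    have e4 : n = n' := Pool.Agent.RelM.strinj e2
    subst e1 e4 e3
    exact Or.inr (Or.inr (Or.inl ⟨κ, n, m, h1, h2, by rw [h6]; rfl⟩))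
  · exact Or.inr (Or.inr (Or.inr h1))

lemma orc_eq (hLV : T_LV) (G : Lang) (K K' : Conf) (B : ℕ)
    (hK : ∀ κ n y, K κ n = some y → y.length = lv κ (ln n))
    (hK' : ∀ κ n y, K' κ n = some y → y.length = lv κ (ln n))
    (h : sec K B = sec K' B) (q : List Bool) (hq : q.length ≤ B) :
    orc G K q = orc G K' q := by
  rw [Bool.eq_iff_iff]
  exact ⟨orc_mono hLV G K K' B hK h.le q hq, orc_mono hLV G K' K B hK' h.ge q hq⟩

lemma acc_congr (hLV : T_LV) (G : Lang) (K K' : Conf) (v : List Instr × ℕ × ℕ) (x : List Bool)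
    (hK : ∀ κ n y, K κ n = some y → y.length = lv κ (ln n))
    (hK' : ∀ κ n y, K' κ n = some y → y.length = lv κ (ln n))
    (h : sec K (qb v x.length) = sec K' (qb v x.length)) :
    acc G K v x ↔ acc G K' v x := by
  unfold acc
  refine exists_congr fun y => and_congr_right fun hy => ?_
  have hrun : run (orc G K') v.1 (pair x y) ((x.length + 2) ^ v.2.2) =
      run (orc G K) v.1 (pair x y) ((x.length + 2) ^ v.2.2) := by
    refine Pool.Agent.RelM.loc (orc G K) (orc G K') v.1 (pair x y)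
      ((x.length + 2) ^ v.2.2) ?_ _ le_rfl
    intro s hs q hq
    have hl := Pool.Agent.RelM.len _ _ _ _ _ hq
    rw [Pool.Agent.RelM.pair_length] at hl
    have hb := Pool.Agent.RelM.HFIX_.qb_bound v x.length
    refine orc_eq hLV G K K' (qb v x.length) hK hK' h q ?_
    omega
  rw [hrun]

lemma words_fin (B : ℕ) : {q : List Bool | q.length ≤ B}.Finite := by
  have : {q : List Bool | q.length ≤ B} ⊆ Set.range (fun i : Fin (2 ^ (B + 1)) => str i) := by
    intro q hq
    obtain ⟨n, hn⟩ := Pool.Agent.RelM.strsurj q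
    have h1 := Pool.Agent.RelM.strlen n
    rw [hn] at h1
    have h2 : Nat.log 2 (n + 1) < B + 1 := by
      have : q.length ≤ B := hq
      omega
    have h3 := Nat.lt_pow_of_log_lt (by norm_num) h2
    exact ⟨⟨n, by omega⟩, hn⟩
  exact (Set.finite_range _).subset this

lemma sec_fin (K : Conf) (B : ℕ) : (sec K B).Finite :=
  (words_fin B).subset fun _ hq => hq.1

open Classical in
lemma sec_card (K : Conf) (B : ℕ) (hK : Bud K) : (sec K B).ncard ≤ B + 1 := by
  have hfin := sec_fin K B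
  rw [Set.ncard_eq_toFinset_card _ hfin]
  have hp : ∀ q ∈ hfin.toFinset, ∃ p : ℕ × ℕ, (K p.1 p.2).isSome ∧ ln p.2 ≤ B ∧
      ∃ y, q = wq p.1 (str p.2) y ∧ K p.1 p.2 = some y := by
    intro q hq
    rw [Set.Finite.mem_toFinset] at hq
    obtain ⟨h1, κ, n, y, h2, h3⟩ := hq
    refine ⟨(κ, n), by simp [h3], ?_, y, h2, h3⟩
    rw [h2, Pool.Agent.RelM.wq_length] at h1
    have h4 : (str n).length = ln n := Pool.Agent.RelM.strlen n
    show ln n ≤ B
    omega
  choose! f hf1 hf2 hf3 using hp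
  have hinj : Set.InjOn f (hfin.toFinset : Set (List Bool)) := by
    intro q hq q' hq' he
    obtain ⟨y, h1, h2⟩ := hf3 q hq
    obtain ⟨y', h1', h2'⟩ := hf3 q' hq'
    rw [← he] at h1' h2'
    rw [h2] at h2'
    have : y = y' := Option.some.inj h2'
    rw [h1, h1', this]
  rw [← Finset.card_image_of_injOn hinj]
  refine hK.2 B _ ?_
  intro p hp
  rw [Finset.mem_image] at hp
  obtain ⟨q, hq, rfl⟩ := hp
  exact ⟨hf1 q hq, hf2 q hq⟩

/-- The set of words coded by `f`. -/
def rng {B : ℕ} (f : Fin (B + 1) → Fin (2 ^ (B + 1))) : Set (List Bool) :=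
  {q | ∃ i, ∃ n : ℕ, (f i : ℕ) = n + 1 ∧ q = str n}

open Classical in
lemma exists_rng (B : ℕ) (S : Set (List Bool)) (hS : ∀ q ∈ S, q.length ≤ B)
    (hc : S.ncard ≤ B + 1) : ∃ f : Fin (B + 1) → Fin (2 ^ (B + 1)), S = rng f := by
  have hfin : S.Finite := (words_fin B).subset hS
  rw [Set.ncard_eq_toFinset_card _ hfin] at hc
  have hnum : ∀ q ∈ S, ∃ n : ℕ, n + 1 < 2 ^ (B + 1) ∧ q = str n := by
    intro q hq
    obtain ⟨n, hn⟩ := Pool.Agent.RelM.strsurj q
    have h1 := Pool.Agent.RelM.strlen n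
    rw [hn] at h1
    have h2 : Nat.log 2 (n + 1) < B + 1 := by
      have : q.length ≤ B := hS q hq
      omega
    exact ⟨n, Nat.lt_pow_of_log_lt (by norm_num) h2, hn.symm⟩
  let L := hfin.toFinset.toList
  have hL : L.length ≤ B + 1 := by
    simp only [L, Finset.length_toList]
    exact hc
  have hmem : ∀ q, q ∈ L ↔ q ∈ S := by
    intro q
    simp only [L, Finset.mem_toList, Set.Finite.mem_toFinset]
  have h0 : 0 < 2 ^ (B + 1) := by positivity
  let g : Fin (B + 1) → Fin (2 ^ (B + 1)) := fun i =>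
    if h : (i : ℕ) < L.length then
      ⟨(hnum L[(i : ℕ)] ((hmem _).1 (List.getElem_mem h))).choose + 1,
        (hnum L[(i : ℕ)] ((hmem _).1 (List.getElem_mem h))).choose_spec.1⟩
    else ⟨0, h0⟩
  refine ⟨g, ?_⟩
  ext q
  constructor
  · intro hq
    obtain ⟨i, hi, hiq⟩ := List.getElem_of_mem ((hmem q).2 hq)
    refine ⟨⟨i, by omega⟩, (hnum L[i] ((hmem _).1 (List.getElem_mem hi))).choose, ?_, ?_⟩
    · simp only [g, dif_pos hi]
    · rw [← (hnum L[i] ((hmem _).1 (List.getElem_mem hi))).choose_spec.2]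
      exact hiq.symm
  · rintro ⟨i, n, h1, h2⟩
    by_cases hi : (i : ℕ) < L.length
    · simp only [g, dif_pos hi] at h1
      have h3 := (hnum L[(i : ℕ)] ((hmem _).1 (List.getElem_mem hi))).choose_spec.2
      have h4 : (hnum L[(i : ℕ)] ((hmem _).1 (List.getElem_mem hi))).choose = n := by omega
      rw [h4] at h3
      rw [h2, ← h3]
      exact (hmem _).1 (List.getElem_mem hi)
    · simp only [g, dif_neg hi] at h1
      omega

open Classical in
/-- One machine has few slices. -/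
lemma ncard_one (hLV : T_LV) (G : Lang) (v : List Instr × ℕ × ℕ) (n : ℕ) :
    {u : Fin (2 ^ n) → Bool | ∃ K : Conf, Bud K ∧
      u = slice (fun x => decide (acc G K v x)) n}.ncard ≤ 2 ^ ((qb v n + 1) ^ 2) := by
  let F : (Fin (qb v n + 1) → Fin (2 ^ (qb v n + 1))) → (Fin (2 ^ n) → Bool) := fun f =>
    if h : ∃ K : Conf, Bud K ∧ sec K (qb v n) = rng f then
      slice (fun x => decide (acc G h.choose v x)) n
    else fun _ => false
  have hsub : {u : Fin (2 ^ n) → Bool | ∃ K : Conf, Bud K ∧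
      u = slice (fun x => decide (acc G K v x)) n} ⊆ Set.range F := by
    rintro u ⟨K, hK, rfl⟩
    obtain ⟨f, hf⟩ := exists_rng (qb v n) (sec K (qb v n)) (fun q hq => hq.1)
      (sec_card K (qb v n) hK)
    refine ⟨f, ?_⟩
    have h : ∃ K : Conf, Bud K ∧ sec K (qb v n) = rng f := ⟨K, hK, hf⟩
    simp only [F, dif_pos h]
    have h1 := h.choose_spec
    funext j
    unfold slice
    have hl : (str (2 ^ n - 1 + (j : ℕ))).length = n :=
      Pool.Agent.RelM.str_length_slice n j j.2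
    rw [decide_eq_decide]
    refine acc_congr hLV G _ _ v _ h1.1.1 hK.1 ?_
    rw [hl, h1.2, hf]
  calc {u : Fin (2 ^ n) → Bool | ∃ K : Conf, Bud K ∧
      u = slice (fun x => decide (acc G K v x)) n}.ncard
      ≤ (Set.range F).ncard := Set.ncard_le_ncard hsub (Set.toFinite _)
    _ ≤ Nat.card (Fin (qb v n + 1) → Fin (2 ^ (qb v n + 1))) := by
        rw [← Set.image_univ]
        refine (Set.ncard_image_le (Set.toFinite _)).trans ?_
        rw [Set.ncard_univ]
    _ = 2 ^ ((qb v n + 1) ^ 2) := by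
        rw [Nat.card_eq_fintype_card, Fintype.card_fun, Fintype.card_fin, Fintype.card_fin,
          ← pow_mul, sq]

end THIN_

open THIN_

open Classical in
theorem thin (hLV : T_LV) : T_THIN := by
  intro G n
  have hV : V G n ⊆ ⋃ e ∈ (Finset.range (n + 1)).filter (fun e => Good e n),
      {u : Fin (2 ^ n) → Bool | ∃ K : Conf, Bud K ∧
        u = slice (fun x => decide (acc G K (cd e) x)) n} := by
    rintro u ⟨e, hen, hg, K, hK, rfl⟩
    simp only [Set.mem_iUnion]
    refine ⟨e, ?_, K, hK, ?_⟩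
    · rw [Finset.mem_filter, Finset.mem_range]
      exact ⟨Nat.lt_succ_of_le hen, hg⟩
    · congr
  have h1 : (V G n).ncard ≤ ∑ e ∈ (Finset.range (n + 1)).filter (fun e => Good e n),
      {u : Fin (2 ^ n) → Bool | ∃ K : Conf, Bud K ∧
        u = slice (fun x => decide (acc G K (cd e) x)) n}.ncard :=
    (Set.ncard_le_ncard hV (Set.toFinite _)).trans (Finset.set_ncard_biUnion_le _ _)
  have h2 : ∀ e ∈ (Finset.range (n + 1)).filter (fun e => Good e n),
      (n + 1) * {u : Fin (2 ^ n) → Bool | ∃ K : Conf, Bud K ∧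
        u = slice (fun x => decide (acc G K (cd e) x)) n}.ncard ≤ 2 ^ 2 ^ (n - 1) := by
    intro e he
    rw [Finset.mem_filter] at he
    exact (Nat.mul_le_mul_left _ (ncard_one hLV G _ n)).trans he.2.2
  have h3 : (n + 1) * ∑ e ∈ (Finset.range (n + 1)).filter (fun e => Good e n),
      {u : Fin (2 ^ n) → Bool | ∃ K : Conf, Bud K ∧
        u = slice (fun x => decide (acc G K (cd e) x)) n}.ncard
      ≤ (n + 1) * 2 ^ 2 ^ (n - 1) := by
    rw [Finset.mul_sum]
    refine (Finset.sum_le_card_nsmul _ _ _ h2).trans ?_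
    rw [smul_eq_mul]
    apply Nat.mul_le_mul_right
    exact (Finset.card_filter_le _ _).trans (by rw [Finset.card_range])
  exact h1.trans (Nat.le_of_mul_le_mul_left h3 (Nat.succ_pos n))

end Pool.Agent.RelG
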